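import Pool.Agent.Run7.h935.AX.VVP

set_option autoImplicit false

open MeasureTheory Set Filter Topology
open scoped ENNReal ContDiff FourierTransform

namespace Run7.h935.AX

open Pool.Agent.Run7.h148.AX

theorem lp_mul (ξ : E3) (c : ℂ) (v : C3) : lp ξ (fun k => c * v k) = c • lp ξ v := by
  funext k
  have : ∑ j, (ξ j : ℂ) * (c * v j) = c * ∑ j, (ξ j : ℂ) * v j := by
    rw [Finset.mul_sum]
    exact Finset.sum_congr rfl fun j _ => by ring
  simp only [Pool.Agent.Run7.h148.AX.lp, dt, Pi.smul_apply, smul_eq_mul, this]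
  ring

theorem int_mul_bdd {f g : E3 → ℂ} (hf : Integrable f) (hg : Measurable g) (M : ℝ)
    (hM : ∀ x, ‖g x‖ ≤ M) : Integrable fun x => f x * g x := by
  refine Integrable.mono' (hf.norm.mul_const M) (hf.1.mul hg.aestronglyMeasurable) ?_
  refine Eventually.of_forall fun x => ?_
  rw [norm_mul]
  exact mul_le_mul_of_nonneg_left (hM x) (norm_nonneg _)

/-- components of the convolution -/
theorem conv1 (ξ : E3) (a g : E3 → C3) (ha : Integrable a) (hg : Measurable g) (M : ℝ)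
    (hM : ∀ x, ‖g x‖ ≤ M) :
    (∫ η, dt ξ (a (ξ - η)) • g η) = fun k => ∑ j, (ξ j : ℂ) * ∫ η, a η j * g (ξ - η) k := by
  have hgk : ∀ k, Measurable fun η => g η k := fun k => (measurable_pi_apply k).comp hg
  have hMk : ∀ k x, ‖g x k‖ ≤ M := fun k x => (norm_le_pi_norm (g x) k).trans (hM x)
  have hak : ∀ j, Integrable fun η => a (ξ - η) j := fun j =>
    (integ_comp ha j).comp_sub_left ξ
  have hI : ∀ j k, Integrable fun η => a (ξ - η) j * g η k := fun j k =>
    int_mul_bdd (hak j) (hgk k) M (hMk k)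
  have e : ∀ k η, (dt ξ (a (ξ - η)) • g η) k = ∑ j, (ξ j : ℂ) * (a (ξ - η) j * g η k) := by
    intro k η
    simp only [dt, Pi.smul_apply, smul_eq_mul, Finset.sum_mul]
    exact Finset.sum_congr rfl fun j _ => by ring
  have hS : ∀ k, Integrable fun η => (dt ξ (a (ξ - η)) • g η) k := by
    intro k
    simp only [e]
    exact integrable_finsetSum _ fun j _ => (hI j k).const_mul _
  funext k
  rw [eval_integral hS]
  simp only [e]
  rw [integral_finsetSum _ fun j _ => (hI j k).const_mul _]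
  refine Finset.sum_congr rfl fun j _ => ?_
  rw [integral_const_mul]
  congr 1
  have := integral_sub_left_eq_self (fun η => a η j * g (ξ - η) k) volume ξ
  rw [← this]
  simp only [sub_sub_cancel]

theorem conv2 (ξ : E3) (a g : E3 → C3) (ha : Integrable a) (hg : Measurable g) (M : ℝ)
    (hM : ∀ x, ‖g x‖ ≤ M) :
    (∫ η, dt ξ (g (ξ - η)) • a η) = fun k => ∑ j, (ξ j : ℂ) * ∫ η, a η k * g (ξ - η) j := by
  have hgk : ∀ k, Measurable fun η => g (ξ - η) k := fun k =>
    (measurable_pi_apply k).comp (hg.comp (measurable_const.sub measurable_id))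
  have hMk : ∀ k x, ‖g (ξ - x) k‖ ≤ M := fun k x => (norm_le_pi_norm (g (ξ - x)) k).trans (hM _)
  have hI : ∀ j k, Integrable fun η => a η k * g (ξ - η) j := fun j k =>
    int_mul_bdd (integ_comp ha k) (hgk j) M (hMk j)
  have e : ∀ k η, (dt ξ (g (ξ - η)) • a η) k = ∑ j, (ξ j : ℂ) * (a η k * g (ξ - η) j) := by
    intro k η
    simp only [dt, Pi.smul_apply, smul_eq_mul, Finset.sum_mul]
    exact Finset.sum_congr rfl fun j _ => by ring
  have hS : ∀ k, Integrable fun η => (dt ξ (g (ξ - η)) • a η) k := by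
    intro k
    simp only [e]
    exact integrable_finsetSum _ fun j _ => (hI j k).const_mul _
  funext k
  rw [eval_integral hS]
  simp only [e]
  rw [integral_finsetSum _ fun j _ => (hI j k).const_mul _]
  exact Finset.sum_congr rfl fun j _ => by rw [integral_const_mul]

theorem cc_coord {W : E3 → E3} (hW : ContDiff ℝ ∞ W) (hW' : HasCompactSupport W) (k : Fin 3) :
    Cc fun x => W x k := by
  refine ⟨contDiff_euclidean.1 hW k, ?_⟩
  exact hW'.comp_left (g := fun v : E3 => v k) rfl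

theorem cc_mul {f ρ : E3 → ℝ} (hf : ContDiff ℝ ∞ f) (hρ : Cc ρ) : Cc fun x => f x * ρ x :=
  ⟨hf.mul hρ.1, hρ.2.mul_left⟩

theorem cc_int {ρ : E3 → ℝ} (hρ : Cc ρ) : Integrable fun x => ((ρ x : ℝ) : ℂ) :=
  (hρ.1.continuous.integrable_of_hasCompactSupport hρ.2).ofReal

theorem pd_int {ρ : E3 → ℝ} (hρ : Cc ρ) (j : Fin 3) : Integrable fun x => ((pd j ρ x : ℝ) : ℂ) := by
  have h1 : Continuous (pd j ρ) := by
    have := hρ.1.continuous_fderiv (by simp)
    exact this.clm_apply continuous_const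
  have h2 : HasCompactSupport (pd j ρ) := hρ.2.fderiv_apply (𝕜 := ℝ) _
  exact (h1.integrable_of_hasCompactSupport h2).ofReal

/-- the transform of a divergence -/
theorem four_div (hFTF : S_FTF) (ρ : Fin 3 → E3 → ℝ) (hρ : ∀ j, Cc (ρ j)) (ξ : E3) :
    𝓕 (fun x => ((∑ j, pd j (ρ j) x : ℝ) : ℂ)) ξ
      = (2 * Real.pi * Complex.I) * ∑ j, (ξ j : ℂ) * 𝓕 (fun x => ((ρ j x : ℝ) : ℂ)) ξ := by
  have e : (fun x => ((∑ j, pd j (ρ j) x : ℝ) : ℂ)) = fun x => ∑ j, ((pd j (ρ j) x : ℝ) : ℂ) := by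
    funext x
    push_cast
    rfl
  rw [e, four_sum Finset.univ (fun j x => ((pd j (ρ j) x : ℝ) : ℂ)) (fun j _ => pd_int (hρ j) j) ξ,
    Finset.mul_sum]
  refine Finset.sum_congr rfl fun j _ => ?_
  rw [hFTF.2 (ρ j) (hρ j) j ξ]
  ring

theorem prod_four (hCNV : S_CNV) (u : E3 → ℝ) (a : E3 → ℂ) (ha : Integrable a) (w : E3 → ℝ)
    (hu : ∀ x, ((u x : ℝ) : ℂ) = 𝓕⁻ a x) (hw : Cc w) (ξ : E3) :
    𝓕 (fun x => ((u x * w x : ℝ) : ℂ)) ξ = ∫ η, a η * 𝓕 (fun x => ((w x : ℝ) : ℂ)) (ξ - η) := by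
  rw [← hCNV a (fun x => ((w x : ℝ) : ℂ)) ha (cc_int hw) ξ]
  have : (fun x => ((u x * w x : ℝ) : ℂ)) = fun x => 𝓕⁻ a x * ((w x : ℝ) : ℂ) := by
    funext x
    rw [Complex.ofReal_mul, hu]
  rw [this]

theorem t_BIL : S_FI1 → S_FI3 → S_FTF → S_CNV → S_BIL := by
  intro _ hFI3 hFTF hCNV a W ham haw hH hW hW' ξ
  obtain ⟨f1, -, -, f4⟩ := hFI3 a ham haw
  obtain ⟨gm, gw, -⟩ := hFTF.1 W hW hW'
  have hU : ∀ x k, ((phy a x k : ℝ) : ℂ) = 𝓕⁻ (fun ξ => a ξ k) x := f1 hH
  have hg : ∀ η k, 𝓕 (fun x => ((W x k : ℝ) : ℂ)) η = fth W η k := fun η k => rfl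
  have hUs : ∀ j, ContDiff ℝ ∞ fun x => phy a x j := fun j => contDiff_euclidean.1 f4 j
  have hWc := fun k => cc_coord hW hW' k
  generalize phy a = U at *
  generalize fth W = g at *
  have ha : Integrable a := integ_of ham (haw 0)
  obtain ⟨M, -, hM⟩ := gw 0
  have hM' : ∀ x, ‖g x‖ ≤ M := by
    intro x
    have := hM x
    rw [wk_zero, one_mul] at this
    exact_mod_cast (by simpa [enorm_le_coe] using this : ‖g x‖₊ ≤ M)
  constructor
  · have e : (fun k => 𝓕 (fun x => (((∑ j, pd j (fun y => U y j * W y k) x) : ℝ) : ℂ)) ξ)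
        = fun k => (2 * Real.pi * Complex.I) *
          (fun k => ∑ j, (ξ j : ℂ) * ∫ η, a η j * g (ξ - η) k) k := by
      funext k
      rw [four_div hFTF (fun j y => U y j * W y k) (fun j => cc_mul (hUs j) (hWc k)) ξ]
      congr 1
      refine Finset.sum_congr rfl fun j _ => ?_
      rw [prod_four hCNV (fun y => U y j) (fun η => a η j) (integ_comp ha j) (fun y => W y k)
        (fun x => hU x j) (hWc k) ξ]
      simp only [hg]
    rw [e, lp_mul, nl, conv1 ξ a g ha gm M hM', neg_smul, neg_neg]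
  · have e : (fun k => 𝓕 (fun x => (((∑ j, pd j (fun y => W y j * U y k) x) : ℝ) : ℂ)) ξ)
        = fun k => (2 * Real.pi * Complex.I) *
          (fun k => ∑ j, (ξ j : ℂ) * ∫ η, a η k * g (ξ - η) j) k := by
      funext k
      have hc : ∀ j, (fun y => W y j * U y k) = fun y => U y k * W y j := fun j => by
        funext y
        ring
      simp only [hc]
      rw [four_div hFTF (fun j y => U y k * W y j) (fun j => cc_mul (hUs k) (hWc j)) ξ]
      congr 1
      refine Finset.sum_congr rfl fun j _ => ?_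
      rw [prod_four hCNV (fun y => U y k) (fun η => a η k) (integ_comp ha k) (fun y => W y j)
        (fun x => hU x k) (hWc j) ξ]
      simp only [hg]
    rw [e, lp_mul, nl, conv2 ξ a g ha gm M hM', neg_smul, neg_neg]

end Run7.h935.AX
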