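import Pool.Agent.Run7.h148.AX.Stm2

set_option autoImplicit false

open MeasureTheory Set Filter Topology
open scoped ENNReal ContDiff FourierTransform

namespace Run7.h935.AX

open Pool.Agent.Run7.h148.AX

/-! ### additivity of the Fourier transforms -/

theorem four_add {f g : E3 → ℂ} (hf : Integrable f) (hg : Integrable g) (ξ : E3) :
    𝓕 (fun x => f x + g x) ξ = 𝓕 f ξ + 𝓕 g ξ := by
  have h1 := (Real.fourierIntegral_convergent_iff (μ := volume) (f := f) ξ).2 hf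
  have h2 := (Real.fourierIntegral_convergent_iff (μ := volume) (f := g) ξ).2 hg
  rw [Real.fourier_eq, Real.fourier_eq, Real.fourier_eq, ← integral_add h1 h2]
  simp only [smul_add]

theorem inv_add {f g : E3 → ℂ} (hf : Integrable f) (hg : Integrable g) (x : E3) :
    𝓕⁻ (fun ξ => f ξ + g ξ) x = 𝓕⁻ f x + 𝓕⁻ g x := by
  rw [Real.fourierInv_eq_fourier_neg, Real.fourierInv_eq_fourier_neg,
    Real.fourierInv_eq_fourier_neg]
  exact four_add hf hg _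

theorem four_sum {ι : Type} (s : Finset ι) (f : ι → E3 → ℂ) (hf : ∀ i ∈ s, Integrable (f i))
    (ξ : E3) : 𝓕 (fun x => ∑ i ∈ s, f i x) ξ = ∑ i ∈ s, 𝓕 (f i) ξ := by
  have h : ∀ i ∈ s, Integrable (fun x => (Real.fourierChar (-(inner ℝ x ξ))) • f i x) := fun i hi =>
    (Real.fourierIntegral_convergent_iff (μ := volume) (f := f i) ξ).2 (hf i hi)
  simp only [Real.fourier_eq]
  rw [← integral_finsetSum s h]
  simp only [Finset.smul_sum]

/-! ### integrability -/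

theorem wk_zero (ξ : E3) : wk 0 ξ = 1 := by simp [wk]

theorem integ_of {a : E3 → C3} (ha : Measurable a) (h : (∫⁻ ξ, wk 0 ξ * ‖a ξ‖ₑ) < ⊤) :
    Integrable a := by
  refine ⟨ha.aestronglyMeasurable, ?_⟩
  simpa [HasFiniteIntegral, wk_zero] using h

theorem integ_comp {a : E3 → C3} (ha : Integrable a) (k : Fin 3) : Integrable fun ξ => a ξ k :=
  Integrable.eval ha k

/-! ### INV -/

theorem phy_add {a b : E3 → C3} (ha : Integrable a) (hb : Integrable b) (x : E3) :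
    phy (fun ξ => a ξ + b ξ) x = phy a x + phy b x := by
  ext k
  have := inv_add (integ_comp ha k) (integ_comp hb k) x
  simp only [phy, PiLp.add_apply, Pi.add_apply]
  rw [this, Complex.add_re]

theorem t_INV : S_FTF → S_VVP → S_WDV → S_INV := by
  intro hFTF hVVP hWDV ν A hν hA n
  obtain ⟨hm, hw, -, hV, -, -, -⟩ := hVVP ν A hν hA
  obtain ⟨-, hW1, hW2⟩ := hWDV ν A (VV ν A) hν hA hV n 0
  obtain ⟨hfm, hfw, -, -, -, -, hfp⟩ := hFTF.1 _ hW1 hW2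
  have i1 : Integrable (Vh ν A) := by
    obtain ⟨M, hM, -⟩ := hw 0
    exact integ_of hm (lt_of_le_of_lt hM ENNReal.coe_lt_top)
  have i2 : Integrable (fth (wf ν A (VV ν A) n 0)) := by
    obtain ⟨M, hM, -⟩ := hfw 0
    exact integ_of hfm (lt_of_le_of_lt hM ENNReal.coe_lt_top)
  have e : gg ν A n 0 = fun ξ => Vh ν A ξ + fth (wf ν A (VV ν A) n 0) ξ := by
    funext ξ
    simp [gg, ta]
  funext x
  rw [e, phy_add i1 i2, hfp]
  rfl

/-! ### VVP -/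

theorem nw_wk (k : ℕ) (ξ : E3) : wk k ξ * nw ξ ≤ wk (k + 1) ξ := by
  unfold wk nw
  rw [← ENNReal.ofReal_mul (by positivity)]
  apply ENNReal.ofReal_le_ofReal
  rw [pow_succ]
  exact mul_le_mul_of_nonneg_left (by linarith) (by positivity)

theorem m1 (a : E3 → C3) (ha : Measurable a) :
    Measurable (Function.uncurry (fun (_ : ℝ) => a)) := by
  have : Function.uncurry (fun (_ : ℝ) => a) = fun p : ℝ × E3 => a p.2 := by
    funext p
    obtain ⟨s, x⟩ := p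
    simp only [Function.uncurry]
  rw [this]
  exact ha.comp measurable_snd

theorem m2 : Measurable fun ξ : E3 => ((0 : ℝ), ξ) := measurable_prodMk_left

theorem m3 (hNLM : S_NLM) (a : E3 → C3) (hu : Measurable (Function.uncurry (fun (_ : ℝ) => a))) :
    Measurable fun p : ℝ × E3 => nl a a p.2 := by
  have := hNLM (fun _ => a) (fun _ => a) hu hu
  exact this

theorem m4 (a : E3 → C3) (h : Measurable fun p : ℝ × E3 => nl a a p.2) : Measurable (nl a a) := by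
  have h2 := h.comp m2
  have e : ((fun p : ℝ × E3 => nl a a p.2) ∘ fun ξ : E3 => ((0 : ℝ), ξ)) = nl a a := by
    funext x
    simp only [Function.comp_apply]
  rw [e] at h2
  exact h2

theorem meas_nl (hNLM : S_NLM) (a : E3 → C3) (ha : Measurable a) : Measurable (nl a a) :=
  m4 a (m3 hNLM a (m1 a ha))

theorem bound_nl (hNLB : S_NLB) (hWK1 : S_WK1) (c : ℝ) (a : E3 → C3) (hfm : Measurable a)
    (hfw : ∀ k : ℕ, ∃ M : NNReal, (∫⁻ ξ, wk k ξ * ‖a ξ‖ₑ) ≤ M ∧ ∀ ξ, wk k ξ * ‖a ξ‖ₑ ≤ M)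
    (V : E3 → C3) (hV : ∀ ξ, ‖V ξ‖ₑ = ‖c‖ₑ * ‖nl a a ξ‖ₑ) (k : ℕ) :
    ∃ M : NNReal, (∫⁻ ξ, wk k ξ * ‖V ξ‖ₑ) ≤ M ∧ ∀ ξ, wk k ξ * ‖V ξ‖ₑ ≤ M := by
  obtain ⟨M1, hM1, hM1'⟩ := hfw (k + 1)
  obtain ⟨M0, hM0, -⟩ := hfw 0
  have hM0' : (∫⁻ ξ, ‖a ξ‖ₑ) ≤ M0 := by
    refine le_trans (le_of_eq ?_) hM0
    refine lintegral_congr fun ξ => ?_
    rw [wk_zero, one_mul]
  obtain ⟨α, hA⟩ : ∃ α : E3 → ℝ≥0∞, α = fun η => ‖a η‖ₑ := ⟨_, rfl⟩
  have hna : Measurable α := by rw [hA]; exact hfm.enorm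
  obtain ⟨w1, w2, -⟩ := hWK1 α α hna hna
  have hB : ∀ ξ, ‖nl a a ξ‖ₑ ≤ 40 * nw ξ * cv α α ξ := by
    intro ξ
    rw [hA]
    exact hNLB a a ξ
  have hM1a : (∫⁻ ξ, wk (k + 1) ξ * α ξ) ≤ M1 := by rw [hA]; exact hM1
  have hM1b : ∀ ξ, wk (k + 1) ξ * α ξ ≤ M1 := by rw [hA]; exact hM1'
  have hM0a : (∫⁻ ξ, α ξ) ≤ M0 := by rw [hA]; exact hM0'
  have hpt : ∀ ξ, wk k ξ * ‖V ξ‖ₑ ≤ (‖c‖ₑ * 40) * (wk (k + 1) ξ * cv α α ξ) := by
    intro ξ
    rw [hV]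
    calc wk k ξ * (‖c‖ₑ * ‖nl a a ξ‖ₑ)
        ≤ wk k ξ * (‖c‖ₑ * (40 * nw ξ * cv α α ξ)) :=
          mul_le_mul_right (mul_le_mul_right (hB ξ) _) _
      _ = (‖c‖ₑ * 40) * ((wk k ξ * nw ξ) * cv α α ξ) := by ring
      _ ≤ _ := mul_le_mul_right (mul_le_mul_left (nw_wk k ξ) _) _
  refine ⟨‖c‖₊ * 40 * (2 ^ (k + 1) * (M1 * M0 + M0 * M1)), ?_, ?_⟩
  · calc (∫⁻ ξ, wk k ξ * ‖V ξ‖ₑ)
        ≤ ∫⁻ ξ, (‖c‖ₑ * 40) * (wk (k + 1) ξ * cv α α ξ) := lintegral_mono hpt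
      _ = (‖c‖ₑ * 40) * ∫⁻ ξ, (wk (k + 1) ξ * cv α α ξ) := by
          rw [lintegral_const_mul']
          exact ENNReal.mul_ne_top enorm_ne_top (by norm_num)
      _ ≤ (‖c‖ₑ * 40) * (2 ^ (k + 1) * ((M1 : ℝ≥0∞) * M0 + M0 * M1)) := by
          refine mul_le_mul_right ((w1 (k + 1)).trans ?_) _
          refine mul_le_mul_right (add_le_add ?_ ?_) _
          · exact mul_le_mul' hM1a hM0a
          · exact mul_le_mul' hM0a hM1a
      _ = _ := by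
          push_cast
          rfl
  · intro ξ
    refine (hpt ξ).trans ?_
    calc (‖c‖ₑ * 40) * (wk (k + 1) ξ * cv α α ξ)
        ≤ (‖c‖ₑ * 40) * (2 ^ (k + 1) * ((M1 : ℝ≥0∞) * M0 + M0 * M1)) := by
          refine mul_le_mul_right ((w2 (k + 1) M1 M1 hM1b hM1b ξ).trans ?_) _
          refine mul_le_mul_right (add_le_add ?_ ?_) _
          · exact mul_le_mul' le_rfl hM0a
          · exact mul_le_mul' hM0a le_rfl
      _ = _ := by
          push_cast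
          rfl

theorem sym_smul (c : ℝ) (b : E3 → C3) (hb : Sym b) (V : E3 → C3)
    (hV : ∀ ξ, V ξ = c • b ξ) : Sym V := by
  have hV' : ∀ ξ k, V ξ k = (c : ℂ) * b ξ k := by
    intro ξ k
    rw [hV, Pi.smul_apply, Complex.real_smul]
  obtain ⟨h1, h2, h3⟩ := hb
  refine ⟨?_, ?_, ?_⟩
  · intro ξ k
    rw [hV', hV', h1, map_mul, Complex.conj_ofReal]
  · intro θ ξ
    funext k
    rw [hV', h2]
    fin_cases k <;> simp [rc, hV'] <;> ring
  · intro ξ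
    have := h3 ξ
    simp only [dt] at this ⊢
    calc ∑ j, (ξ j : ℂ) * V ξ j = (c : ℂ) * ∑ j, (ξ j : ℂ) * b ξ j := by
          rw [Finset.mul_sum]
          exact Finset.sum_congr rfl fun j _ => by rw [hV']; ring
      _ = 0 := by rw [this, mul_zero]

theorem t_VVP : S_FTF → S_NLB → S_NLM → S_CVM → S_WK1 → S_SY1 → S_FI3 → S_VVP := by
  intro hFTF hNLB hNLM _ hWK1 hSY1 hFI3 ν A hν hA
  obtain ⟨hA1, hA2, -, hA4⟩ := hA
  obtain ⟨hfm, hfw, hHerm, hRot, -, -, -⟩ := hFTF.1 A hA1 hA2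
  have hV : ∀ ξ, Vh ν A ξ = (-(1 / (4 * ν)) : ℝ) • nl (fth A) (fth A) ξ := fun ξ => rfl
  have hVV : VV ν A = phy (Vh ν A) := rfl
  generalize fth A = a at *
  generalize (-(1 / (4 * ν)) : ℝ) = c at *
  rw [hVV]
  generalize Vh ν A = V at *
  have hmeas : Measurable V := by
    have : V = fun ξ => c • nl a a ξ := funext hV
    rw [this]
    exact (meas_nl hNLM a hfm).const_smul c
  have hb := bound_nl hNLB hWK1 c a hfm hfw V (fun ξ => by rw [hV, enorm_smul])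
  have hS : Sym V := sym_smul c (nl a a)
    ⟨hSY1.1 a a hHerm hHerm, hSY1.2.1 a a (hRot hA4) (hRot hA4), hSY1.2.2 a a⟩ V hV
  have hfin : ∀ k : ℕ, (∫⁻ ξ, wk k ξ * ‖V ξ‖ₑ) < ⊤ := by
    intro k
    obtain ⟨M, hM, -⟩ := hb k
    exact lt_of_le_of_lt hM ENNReal.coe_lt_top
  obtain ⟨f1, f2, f3, f4⟩ := hFI3 V hmeas hfin
  exact ⟨hmeas, hb, hS, f4, f2 hS.1 hS.2.1, f3 hS.1 hS.2.2, f1 hS.1⟩

end Run7.h935.AX
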